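import Pool.Agent.U481.HW.Stm2

set_option autoImplicit false

/-!
Project HW (helper481, MP_945c9c_an), package KERNELQ (helper59): smoothness of the conjugate Poisson
integral of a function vanishing on the triple of a dyadic interval, uniformly in `δ > 0`.
The proof follows package KERNEL (Pool.Agent.U211.HW.Kernel, helper211).
-/

open MeasureTheory Filter Topology Set
open scoped ENNReal NNReal

namespace Pool.Agent.U59.HW.KernelQ

open Pool.Dav Pool.Agent.U481.HW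

/-- points of `DD r` are at distance at least `2 ^ n` from the complement of `D3 r` -/
theorem dist_ge {r : ℤ × ℤ} {x y : ℝ} (hx : x ∈ DD r) (hy : y ∉ D3 r) : (2 : ℝ) ^ r.1 ≤ |x - y| := by
  have hl : (0 : ℝ) < 2 ^ r.1 := by positivity
  obtain ⟨h1, h2⟩ := hx
  have hy' : y < ((r.2 : ℝ) - 1) * 2 ^ r.1 ∨ ((r.2 : ℝ) + 2) * 2 ^ r.1 ≤ y := by
    by_contra h
    push Not at h
    exact hy ⟨h.1, h.2⟩
  rcases hy' with h | h
  · refine le_trans ?_ (le_abs_self _)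
    nlinarith
  · rw [abs_sub_comm]
    refine le_trans ?_ (le_abs_self _)
    nlinarith

theorem dist_le {r : ℤ × ℤ} {x x' : ℝ} (hx : x ∈ DD r) (hx' : x' ∈ DD r) :
    |x - x'| ≤ (2 : ℝ) ^ r.1 := by
  obtain ⟨h1, h2⟩ := hx
  obtain ⟨h3, h4⟩ := hx'
  rw [abs_le]
  constructor <;> nlinarith

theorem int_le (f : ℝ → ℝ≥0∞) {a b x : ℝ} (ha : a < x) (hb : x < b) :
    ∫⁻ y in Ioo a b, f y ≤ MM volume f x * ENNReal.ofReal (b - a) := by
  have h1 : (∫⁻ y in Ioo a b, f y ∂volume) / volume (Ioo a b) ≤ MM volume f x := by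
    unfold MM
    exact le_iSup_of_le a (le_iSup_of_le b (le_iSup_of_le ⟨ha, hb⟩ le_rfl))
  rw [Real.volume_Ioo] at h1
  have h2 : ENNReal.ofReal (b - a) ≠ 0 := by
    rw [Ne, ENNReal.ofReal_eq_zero, not_le]
    linarith
  rwa [ENNReal.div_le_iff h2 ENNReal.ofReal_ne_top] at h1

/-- the kernel is bounded -/
theorem ker_bd {d : ℝ} (hd : 0 < d) (u : ℝ) : |u / (u ^ 2 + d ^ 2)| ≤ d⁻¹ := by
  have h0 : 0 < u ^ 2 + d ^ 2 := by positivity
  rw [abs_div, abs_of_pos h0, div_le_iff₀ h0, inv_mul_eq_div, le_div_iff₀ hd]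
  nlinarith [sq_nonneg (|u| - d), sq_abs u, abs_nonneg u, mul_nonneg (abs_nonneg u) hd.le]

/-- the difference of two values of the kernel -/
theorem ker_diff {d : ℝ} (hd : 0 < d) {u v : ℝ} (hu : 0 < |u|) (hv : 0 < |v|) :
    |u / (u ^ 2 + d ^ 2) - v / (v ^ 2 + d ^ 2)| ≤ |v - u| / (|u| * |v|) := by
  have h1 : 0 < u ^ 2 + d ^ 2 := by positivity
  have h2 : 0 < v ^ 2 + d ^ 2 := by positivity
  have he : u / (u ^ 2 + d ^ 2) - v / (v ^ 2 + d ^ 2) =
      (v - u) * (u * v - d ^ 2) / ((u ^ 2 + d ^ 2) * (v ^ 2 + d ^ 2)) := by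
    field_simp
    ring
  rw [he, abs_div, abs_mul, abs_of_pos (mul_pos h1 h2),
    div_le_div_iff₀ (mul_pos h1 h2) (mul_pos hu hv), mul_assoc]
  refine mul_le_mul_of_nonneg_left ?_ (abs_nonneg _)
  have h3 : |u * v - d ^ 2| ≤ |u| * |v| + d ^ 2 := by
    calc |u * v - d ^ 2| ≤ |u * v| + |d ^ 2| := abs_sub _ _
      _ = |u| * |v| + d ^ 2 := by rw [abs_mul, abs_of_nonneg (sq_nonneg d)]
  calc |u * v - d ^ 2| * (|u| * |v|) ≤ (|u| * |v| + d ^ 2) * (|u| * |v|) :=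
        mul_le_mul_of_nonneg_right h3 (by positivity)
    _ ≤ (|u| ^ 2 + d ^ 2) * (|v| ^ 2 + d ^ 2) := by
        nlinarith [sq_nonneg (|u| - |v|), sq_nonneg d, mul_nonneg (sq_nonneg d) (sq_nonneg (|u| - |v|)),
          mul_nonneg (sq_nonneg d) (mul_nonneg hu.le hv.le), sq_nonneg (d ^ 2)]
    _ = _ := by rw [sq_abs, sq_abs]

theorem int_ker {g : ℝ → ℂ} (hg : Integrable g) {d : ℝ} (hd : 0 < d) (x : ℝ) :
    Integrable (fun t : ℝ => ((Real.pi⁻¹ * ((x - t) / ((x - t) ^ 2 + d ^ 2)) : ℝ) : ℂ) * g t) := by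
  refine Integrable.mono' (hg.norm.const_mul (Real.pi⁻¹ * d⁻¹))
    (AEStronglyMeasurable.mul (by
      apply Continuous.aestronglyMeasurable
      refine Complex.continuous_ofReal.comp (continuous_const.mul (Continuous.div (by fun_prop) (by fun_prop) ?_))
      intro t
      positivity) hg.aestronglyMeasurable)
    (Eventually.of_forall fun t => ?_)
  rw [norm_mul, Complex.norm_real, Real.norm_eq_abs, abs_mul, abs_of_pos (inv_pos.2 Real.pi_pos)]
  exact mul_le_mul_of_nonneg_right (mul_le_mul_of_nonneg_left (ker_bd hd _)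
    (inv_nonneg.2 Real.pi_pos.le)) (norm_nonneg _)

/-- PACKAGE KERNELQ. -/
theorem main : S_kernelQ := by
  refine ⟨16, by norm_num, fun d hd g hg r h0 x hx x' hx' => ?_⟩
  have hl : (0 : ℝ) < 2 ^ r.1 := by positivity
  set l : ℝ := 2 ^ r.1 with hldef
  set M := MM volume (fun y => ‖g y‖ₑ) x' with hM
  unfold QQ
  rw [← integral_sub (int_ker hg hd x) (int_ker hg hd x')]
  have hpt : ∀ y : ℝ, ‖((Real.pi⁻¹ * ((x - y) / ((x - y) ^ 2 + d ^ 2)) : ℝ) : ℂ) * g y -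
      ((Real.pi⁻¹ * ((x' - y) / ((x' - y) ^ 2 + d ^ 2)) : ℝ) : ℂ) * g y‖ₑ ≤
      ∑' k : ℕ, ENNReal.ofReal (2 / (4 ^ k * l)) *
        (Ioo (x' - 2 ^ (k + 1) * l) (x' + 2 ^ (k + 1) * l)).indicator (fun y => ‖g y‖ₑ) y := by
    intro y
    by_cases hy : y ∈ D3 r
    · rw [h0 y hy]
      simp
    · have h1 := dist_ge hx hy
      have h2 := dist_ge hx' hy
      have h3 := dist_le hx' hx
      have h4 : |x' - y| ≤ 2 * |x - y| := by
        have : |x' - y| ≤ |x' - x| + |x - y| := abs_sub_le _ _ _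
        linarith
      obtain ⟨k, hk1, hk2⟩ := exists_nat_pow_near (x := |x' - y| / l) (y := (2 : ℝ))
        (by rw [le_div_iff₀ hl, one_mul]; exact h2) one_lt_two
      rw [le_div_iff₀ hl] at hk1
      rw [div_lt_iff₀ hl] at hk2
      refine le_trans ?_ (ENNReal.le_tsum k)
      have hmem : y ∈ Ioo (x' - 2 ^ (k + 1) * l) (x' + 2 ^ (k + 1) * l) := by
        rw [abs_lt] at hk2
        exact ⟨by linarith [hk2.2], by linarith [hk2.1]⟩
      rw [indicator_of_mem hmem]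
      have hp1 : 0 < |x - y| := lt_of_lt_of_le hl h1
      have hp2 : 0 < |x' - y| := lt_of_lt_of_le hl h2
      have he : ((Real.pi⁻¹ * ((x - y) / ((x - y) ^ 2 + d ^ 2)) : ℝ) : ℂ) * g y -
          ((Real.pi⁻¹ * ((x' - y) / ((x' - y) ^ 2 + d ^ 2)) : ℝ) : ℂ) * g y =
          ((Real.pi⁻¹ * ((x - y) / ((x - y) ^ 2 + d ^ 2) - (x' - y) / ((x' - y) ^ 2 + d ^ 2)) : ℝ) : ℂ)
            * g y := by
        rw [← sub_mul, ← Complex.ofReal_sub, mul_sub]
      rw [he, enorm_mul]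
      refine mul_le_mul_left ?_ _
      rw [← ofReal_norm]
      apply ENNReal.ofReal_le_ofReal
      rw [Complex.norm_real, Real.norm_eq_abs, abs_mul, abs_of_pos (inv_pos.2 Real.pi_pos)]
      have hk := ker_diff hd hp1 hp2
      have hpi : Real.pi⁻¹ ≤ 1 := inv_le_one_of_one_le₀ (by linarith [Real.pi_gt_three])
      have hxx : |x' - y - (x - y)| = |x' - x| := by congr 1; ring
      rw [hxx] at hk
      refine le_trans (mul_le_of_le_one_left (abs_nonneg _) hpi) (hk.trans ?_)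
      rw [div_le_div_iff₀ (mul_pos hp1 hp2) (by positivity)]
      have h5 : (4 : ℝ) ^ k * l * l ≤ |x' - y| * |x' - y| := by
        have : (4 : ℝ) ^ k = 2 ^ k * 2 ^ k := by rw [← mul_pow]; norm_num
        rw [this]
        calc (2 : ℝ) ^ k * 2 ^ k * l * l = (2 ^ k * l) * (2 ^ k * l) := by ring
          _ ≤ _ := mul_le_mul hk1 hk1 (by positivity) (abs_nonneg _)
      calc |x' - x| * (4 ^ k * l) ≤ l * (4 ^ k * l) :=
            mul_le_mul_of_nonneg_right h3 (by positivity)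
        _ = 4 ^ k * l * l := by ring
        _ ≤ |x' - y| * |x' - y| := h5
        _ ≤ 2 * |x - y| * |x' - y| := mul_le_mul_of_nonneg_right h4 (abs_nonneg _)
        _ = 2 * (|x - y| * |x' - y|) := by ring
  have hmeas : ∀ k : ℕ, AEMeasurable (fun y : ℝ => ENNReal.ofReal (2 / (4 ^ k * l)) *
      (Ioo (x' - 2 ^ (k + 1) * l) (x' + 2 ^ (k + 1) * l)).indicator (fun y => ‖g y‖ₑ) y) volume := by
    intro k
    exact (hg.aestronglyMeasurable.enorm.indicator measurableSet_Ioo).const_mul _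
  have hterm : ∀ k : ℕ, (∫⁻ y : ℝ, ENNReal.ofReal (2 / (4 ^ k * l)) *
      (Ioo (x' - 2 ^ (k + 1) * l) (x' + 2 ^ (k + 1) * l)).indicator (fun y => ‖g y‖ₑ) y) ≤
      ENNReal.ofReal (8 * (1 / 2) ^ k) * M := by
    intro k
    rw [lintegral_const_mul'' _ (hg.aestronglyMeasurable.enorm.indicator measurableSet_Ioo),
      lintegral_indicator measurableSet_Ioo]
    have hpos : (0 : ℝ) < 2 ^ (k + 1) * l := by positivity
    have h6 := int_le (fun y => ‖g y‖ₑ) (a := x' - 2 ^ (k + 1) * l) (b := x' + 2 ^ (k + 1) * l)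
      (x := x') (by linarith) (by linarith)
    calc ENNReal.ofReal (2 / (4 ^ k * l)) *
          ∫⁻ y in Ioo (x' - 2 ^ (k + 1) * l) (x' + 2 ^ (k + 1) * l), ‖g y‖ₑ
        ≤ ENNReal.ofReal (2 / (4 ^ k * l)) *
          (M * ENNReal.ofReal (x' + 2 ^ (k + 1) * l - (x' - 2 ^ (k + 1) * l))) := by gcongr
      _ = ENNReal.ofReal (2 / (4 ^ k * l) * (x' + 2 ^ (k + 1) * l - (x' - 2 ^ (k + 1) * l))) * M := by
          rw [ENNReal.ofReal_mul (by positivity)]
          ring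
      _ = ENNReal.ofReal (8 * (1 / 2) ^ k) * M := by
          congr 2
          have : (4 : ℝ) ^ k = 2 ^ k * 2 ^ k := by rw [← mul_pow]; norm_num
          rw [this, one_div, inv_pow, pow_succ]
          field_simp
          ring
  refine le_trans (enorm_integral_le_lintegral_enorm _) ?_
  calc (∫⁻ y : ℝ, ‖((Real.pi⁻¹ * ((x - y) / ((x - y) ^ 2 + d ^ 2)) : ℝ) : ℂ) * g y -
        ((Real.pi⁻¹ * ((x' - y) / ((x' - y) ^ 2 + d ^ 2)) : ℝ) : ℂ) * g y‖ₑ)
      ≤ ∫⁻ y : ℝ, ∑' k : ℕ, ENNReal.ofReal (2 / (4 ^ k * l)) *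
        (Ioo (x' - 2 ^ (k + 1) * l) (x' + 2 ^ (k + 1) * l)).indicator (fun y => ‖g y‖ₑ) y :=
        lintegral_mono hpt
    _ = ∑' k : ℕ, ∫⁻ y : ℝ, ENNReal.ofReal (2 / (4 ^ k * l)) *
        (Ioo (x' - 2 ^ (k + 1) * l) (x' + 2 ^ (k + 1) * l)).indicator (fun y => ‖g y‖ₑ) y :=
        lintegral_tsum hmeas
    _ ≤ ∑' k : ℕ, ENNReal.ofReal (8 * (1 / 2) ^ k) * M := ENNReal.tsum_le_tsum hterm
    _ = 16 * M := by
        rw [ENNReal.tsum_mul_right]
        congr 1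
        rw [← ENNReal.ofReal_tsum_of_nonneg (fun k => by positivity)
          (summable_geometric_two.mul_left 8), tsum_mul_left, tsum_geometric_two]
        norm_num

end Pool.Agent.U59.HW.KernelQ
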